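import Mathlib

/-!
# Finite uniform probability: basic definitions and statements
-/

set_option autoImplicit false

namespace Pool.Agent.H699.T

open Finset Classical

/-- Average over a finite type. -/
noncomputable def ex {Ω : Type} [Fintype Ω] (f : Ω → ℝ) : ℝ := (∑ ω, f ω) / Fintype.card Ω

/-- Uniform probability on a finite type. -/
noncomputable def pr {Ω : Type} [Fintype Ω] (P : Ω → Prop) : ℝ := ex fun ω => if P ω then 1 else 0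

/-- The random set of coordinates with value zero. -/
noncomputable def zs {N q : ℕ} (ω : Fin N → Fin q) : Finset (Fin N) :=
  univ.filter fun v => (ω v : ℕ) = 0

/-- A fixed set is avoided by a random set of density `1/q`. -/
def S_AVOID : Prop := ∀ (N q : ℕ), 1 ≤ q → ∀ S : Finset (Fin N),
  pr (fun ω : Fin N → Fin q => ∀ u ∈ S, u ∉ zs ω) = (1 - 1 / (q : ℝ)) ^ S.card

/-- Expected size of the intersection with a random set. -/
def S_EXSUM : Prop := ∀ (N q : ℕ), 1 ≤ q → ∀ g : Fin N → ℝ,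
  ex (fun ω : Fin N → Fin q => ∑ v ∈ zs ω, g v) = (∑ v, g v) / q

/-- Exponential concentration for sums over a random set of density `1/q`. -/
def S_CONC : Prop := ∀ (N q : ℕ), 1 ≤ q → ∀ (g : Fin N → ℝ) (F ε : ℝ), 0 < F → (∀ v, |g v| ≤ F) →
  0 < ε → ε ≤ F →
  pr (fun ω : Fin N → Fin q => (∑ v, g v) / q + ε * N ≤ ∑ v ∈ zs ω, g v)
    ≤ Real.exp (-(ε ^ 2 * N / (4 * F ^ 2)))

/-- The number of functions to `{0,...,K}` of small support is subexponential. -/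
def S_COUNT : Prop := ∀ (K : ℕ) (ζ : ℝ), 0 < ζ → ∃ δ : ℝ, 0 < δ ∧ ∀ N : ℕ,
  (((univ : Finset (Fin N → Fin (K + 1))).filter
    (fun h => ((univ.filter fun v => (h v : ℕ) ≠ 0).card : ℝ) ≤ δ * N)).card : ℝ)
    ≤ Real.exp (ζ * N)

/-- A random set of density `1/t` rarely misses a large set. -/
def S_MISS : Prop := ∀ (N t : ℕ), 1 ≤ t → ∀ Y : Finset (Fin N),
  ex (fun ω : Fin N → Fin t => if (∀ u ∈ Y, u ∉ zs ω) then (Y.card : ℝ) else 0) ≤ t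

/-- Expectation is monotone, additive; Markov; Fubini; union bound. -/
def S_EXBASIC : Prop :=
  (∀ (Ω : Type) [Fintype Ω] (f g : Ω → ℝ), (∀ ω, f ω ≤ g ω) → ex f ≤ ex g) ∧
  (∀ (Ω : Type) [Fintype Ω] (f g : Ω → ℝ), ex (fun ω => f ω + g ω) = ex f + ex g) ∧
  (∀ (Ω : Type) [Fintype Ω] (c : ℝ) (f : Ω → ℝ), ex (fun ω => c * f ω) = c * ex f) ∧
  (∀ (Ω : Type) [Fintype Ω] [Nonempty Ω] (c : ℝ), ex (fun _ : Ω => c) = c) ∧
  (∀ (Ω ι : Type) [Fintype Ω] (I : Finset ι) (f : ι → Ω → ℝ),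
    ex (fun ω => ∑ i ∈ I, f i ω) = ∑ i ∈ I, ex (f i)) ∧
  (∀ (Ω Ω' : Type) [Fintype Ω] [Fintype Ω'] (f : Ω × Ω' → ℝ),
    ex f = ex (fun ω => ex (fun ω' => f (ω, ω')))) ∧
  (∀ (Ω Ω' : Type) [Fintype Ω] [Fintype Ω'] (f : Ω × Ω' → ℝ),
    ex f = ex (fun ω' => ex (fun ω => f (ω, ω')))) ∧
  (∀ (Ω : Type) [Fintype Ω] (f : Ω → ℝ) (c : ℝ), 0 < c → (∀ ω, 0 ≤ f ω) →
    pr (fun ω => c ≤ f ω) ≤ ex f / c) ∧
  (∀ (Ω : Type) [Fintype Ω] (P Q : Ω → Prop), pr (fun ω => P ω ∨ Q ω) ≤ pr P + pr Q) ∧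
  (∀ (Ω : Type) [Fintype Ω] (P Q : Ω → Prop), (∀ ω, P ω → Q ω) → pr P ≤ pr Q) ∧
  (∀ (Ω : Type) [Fintype Ω] (P : Ω → Prop), 0 ≤ pr P ∧ pr P ≤ 1) ∧
  (∀ (Ω ι : Type) [Fintype Ω] (I : Finset ι) (P : ι → Ω → Prop),
    pr (fun ω => ∃ i ∈ I, P i ω) ≤ ∑ i ∈ I, pr (P i))

end Pool.Agent.H699.T
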