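import Pool.Agent.H699.T.Base
import Pool.Agent.H699.T.Prob

/-!
# Query algorithms: definitions and statements
-/

set_option autoImplicit false

namespace Pool.Agent.H699.T

open Finset Classical

/-- Query algorithms over `V` with answers in `A` and outputs in `O`. -/
inductive DT (V A O : Type) : Type
  | done : O → DT V A O
  | ask : V → V → (A → DT V A O) → DT V A O

/-- Output on the input `d`. -/
def DT.eval {V A O : Type} (d : V → V → A) : DT V A O → O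
  | .done o => o
  | .ask x y k => DT.eval d (k (d x y))

/-- Number of queries on the input `d`. -/
def DT.cost {V A O : Type} (d : V → V → A) : DT V A O → ℕ
  | .done _ => 0
  | .ask x y k => DT.cost d (k (d x y)) + 1

/-- `f` can be computed with at most `c` queries on all inputs in `D`. -/
def LocOn {V A O : Type} (D : Set (V → V → A)) (c : ℕ) (f : (V → V → A) → O) : Prop :=
  ∃ P : DT V A O, ∀ d ∈ D, P.eval d = f d ∧ P.cost d ≤ c

/-- Combinators for `LocOn`. -/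
def S_LOCBASIC : Prop :=
  (∀ (V A O : Type) [Nonempty A] (D D' : Set (V → V → A)) (c c' : ℕ) (f : (V → V → A) → O),
    LocOn D c f → D' ⊆ D → c ≤ c' → LocOn D' c' f) ∧
  (∀ (V A O O' : Type) [Nonempty A] (D : Set (V → V → A)) (c c' : ℕ) (g : (V → V → A) → O)
    (f : (V → V → A) → O'),
    LocOn D c g → (∀ a, LocOn {d | d ∈ D ∧ g d = a} c' f) → LocOn D (c + c') f) ∧
  (∀ (V A O O' : Type) [Nonempty A] (D : Set (V → V → A)) (c : ℕ) (g : (V → V → A) → O)
    (f : (V → V → A) → O'),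
    LocOn D c g → (∀ d ∈ D, ∀ d' ∈ D, g d = g d' → f d = f d') → LocOn D c f) ∧
  (∀ (V A O : Type) [Nonempty A] (D : Set (V → V → A)) (f : (V → V → A) → O),
    (∀ d ∈ D, ∀ d' ∈ D, f d = f d') → LocOn D 0 f) ∧
  (∀ (V A : Type) [Nonempty A] (D : Set (V → V → A)) (x y : V),
    LocOn D 1 (fun d => d x y)) ∧
  (∀ (V A : Type) [Fintype V] [Nonempty A] (D : Set (V → V → A)) (x : V),
    LocOn D (Fintype.card V) (fun d => d x)) ∧
  (∀ (V A O ι : Type) [Nonempty A] [Inhabited O] (D : Set (V → V → A)) (c : ℕ) (I : Finset ι)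
    (g : ι → (V → V → A) → O),
    (∀ i ∈ I, LocOn D c (g i)) → LocOn D (I.card * c) (fun d i => if i ∈ I then g i d else default))

/-- Transport of a query algorithm along a map of points and a map of answers. -/
def S_COMAP : Prop := ∀ (V V' A A' O : Type) (e : V' → V) (g : A → A') (P : DT V' A' O),
  ∃ P' : DT V A O, ∀ d : V → V → A,
    P'.eval d = P.eval (fun x y => g (d (e x) (e y))) ∧
    P'.cost d = P.cost (fun x y => g (d (e x) (e y)))

/-- From query algorithms to the step functions of the frozen statement. -/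
def S_STEP : Prop := ∀ (n m : ℕ) (P : Fin m → DT (Fin n) ℝ ℝ),
  ∃ step : Fin m → List ℝ → ((Fin n × Fin n) ⊕ ℝ),
    ∀ (s : Fin m) (d : Fin n → Fin n → ℝ) (q : ℕ), (P s).cost d ≤ q →
      step s ((fun h : List ℝ =>
        Sum.elim (fun p : Fin n × Fin n => h ++ [d p.1 p.2])
          (fun _ : ℝ => h) (step s h))^[q] []) = Sum.inr ((P s).eval d)

/-- Integer metrics with values at most `k`. -/
structure IMet {N : ℕ} (k : ℕ) (d : Fin N → Fin N → ℕ) : Prop where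
  self : ∀ x, d x x = 0
  pos : ∀ x y, x ≠ y → 1 ≤ d x y
  symm : ∀ x y, d x y = d y x
  tri : ∀ x y z, d x z ≤ d x y + d y z
  bd : ∀ x y, d x y ≤ k

/-- The tour length of an integer metric. -/
noncomputable def tspI {N : ℕ} (d : Fin N → Fin N → ℕ) : ℝ :=
  tsp (fun x y => (d x y : ℝ)) univ

/-- **The bounded theorem.** -/
def S_BND : Prop := ∃ δ0 : ℝ, 0 < δ0 ∧ δ0 < 1 ∧ ∀ (k : ℕ) (ε η pf : ℝ), 0 < ε → 0 < η → 0 < pf →
  ∃ N0 : ℕ, ∀ N : ℕ, N0 ≤ N → ∃ m : ℕ, 0 < m ∧ ∃ P : Fin m → DT (Fin N) ℕ ℝ,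
    (∀ s d, IMet k d → ((P s).cost d : ℝ) ≤ η * N ^ 2) ∧
    ∀ d, IMet k d → pr (fun s : Fin m => ¬ (tspI d ≤ (P s).eval d ∧
      (P s).eval d ≤ (2 - δ0) * tspI d + ε * N)) ≤ pf

/-- Real metrics on `Fin n` with distinct points at positive distance. -/
structure RMet {n : ℕ} (d : Fin n → Fin n → ℝ) : Prop where
  met : IsMet d
  pos : ∀ x y, x ≠ y → 0 < d x y

/-- **Subroutine for clusters of bounded diameter.** -/
def S_SUB : Prop := ∃ δ0 : ℝ, 0 < δ0 ∧ δ0 < 1 ∧ ∀ (K ε η pf : ℝ), 0 < K → 0 < ε → 0 < η → 0 < pf →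
  ∃ N0 : ℕ, ∀ n : ℕ, ∃ m : ℕ, 0 < m ∧ ∃ P : Fin m → Finset (Fin n) → ℝ → DT (Fin n) ℝ ℝ,
    ∀ (F : Finset (Fin n)) (u : ℝ) (d : Fin n → Fin n → ℝ), 0 < u → RMet d →
      (∀ x ∈ F, ∀ y ∈ F, d x y ≤ K * u) →
      (∀ s, ((P s F u).cost d : ℝ) ≤ η * F.card ^ 2 + N0) ∧
      pr (fun s : Fin m => ¬ (tsp d F ≤ (P s F u).eval d ∧
        (P s F u).eval d ≤ (2 - δ0) * tsp d F + (2 + ε) * F.card * u)) ≤ pf

/-- The result for every query density. -/
def S_ETA : Prop := ∃ δ : ℝ, 0 < δ ∧ δ < 1 ∧ ∀ η : ℝ, 0 < η → ∃ n0 : ℕ, ∀ n : ℕ, n0 ≤ n →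
  ∃ m : ℕ, 0 < m ∧ ∃ P : Fin m → DT (Fin n) ℝ ℝ,
    ∀ d, RMet d → (∀ s, ((P s).cost d : ℝ) ≤ η * n ^ 2) ∧
      pr (fun s : Fin m => ¬ (tsp d univ ≤ (P s).eval d ∧
        (P s).eval d ≤ (2 - δ) * tsp d univ)) ≤ 1 / 3

open Asymptotics in
/-- The frozen statement. -/
def S_FROZEN : Prop :=
    ∃ δ : ℝ, 0 < δ ∧ ∃ q : ℕ → ℕ,
      (fun n : ℕ => (q n : ℝ)) =o[Filter.atTop] (fun n : ℕ => (n : ℝ) ^ 2) ∧
      ∀ n : ℕ, ∃ m : ℕ, 0 < m ∧
        ∃ step : Fin m → List ℝ → ((Fin n × Fin n) ⊕ ℝ),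
          ∀ d : Fin n → Fin n → ℝ,
            (∀ i, d i i = 0) →
            (∀ i j, i ≠ j → 0 < d i j) →
            (∀ i j, d i j = d j i) →
            (∀ i j k, d i k ≤ d i j + d j k) →
            2 * m ≤ 3 * Nat.card {s : Fin m // ∃ r : ℝ,
              step s ((fun h : List ℝ =>
                  Sum.elim (fun p : Fin n × Fin n => h ++ [d p.1 p.2])
                    (fun _ : ℝ => h) (step s h))^[q n] []) = Sum.inr r ∧
              (⨅ σ : Equiv.Perm (Fin n), ∑ i : Fin n, d (σ i) (σ (finRotate n i))) ≤ r ∧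
              r ≤ (2 - δ) *
                (⨅ σ : Equiv.Perm (Fin n), ∑ i : Fin n, d (σ i) (σ (finRotate n i)))}

end Pool.Agent.H699.T
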