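import Pool.Agent.H699.T.Forest
import Pool.Agent.H699.T.DT

/-!
# Unit systems, dense stage, sparse stage: definitions and statements
-/

set_option autoImplicit false

namespace Pool.Agent.H699.T

open Finset Classical

/-- A unit system: a family of small trees hanging from a common root. `ch x` is the chain from
`x` to the top `top x` of its unit, `w v` the weight of the edge above `v`. -/
structure US (N : ℕ) where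
  V0 : Finset (Fin N)
  top : Fin N → Fin N
  ch : Fin N → Finset (Fin N)
  w : Fin N → ℕ
  d : Fin N → Fin N → ℕ

variable {N : ℕ}

/-- The unit with top `l`. -/
noncomputable def US.un (s : US N) (l : Fin N) : Finset (Fin N) := s.V0.filter fun x => s.top x = l

structure US.Ok (s : US N) (k M Kp : ℕ) : Prop where
  mem : ∀ x ∈ s.V0, x ∈ s.ch x
  sub : ∀ x ∈ s.V0, s.ch x ⊆ s.V0
  topc : ∀ x ∈ s.V0, ∀ y ∈ s.ch x, s.top y = s.top x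
  topm : ∀ x ∈ s.V0, s.top x ∈ s.V0 ∧ s.top (s.top x) = s.top x
  card : ∀ l, (s.un l).card ≤ M
  wk : ∀ x, s.w x ≤ k
  chw : ∀ x ∈ s.V0, ∑ v ∈ s.ch x, s.w v ≤ Kp
  symm : ∀ x y, s.d x y = s.d y x

/-- Remaining potential of `x` when `Z` is absorbed. -/
noncomputable def US.pt (s : US N) (Z : Finset (Fin N)) (x : Fin N) : ℕ := ∑ v ∈ s.ch x \ Z, s.w v

/-- Weight of the symmetric difference of two chains outside `Z`. -/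
noncomputable def US.cw (s : US N) (Z : Finset (Fin N)) (x y : Fin N) : ℕ :=
  ∑ v ∈ symmDiff (s.ch x) (s.ch y) \ Z, s.w v

/-- Restriction of a unit system to a set. -/
noncomputable def US.res (s : US N) (W : Finset (Fin N)) : US N where
  V0 := s.V0 ∩ W
  top := fun x => if x ∈ W then s.top x else x
  ch := fun x => if x ∈ W then s.ch x else ∅
  w := fun x => if x ∈ W then s.w x else 0
  d := fun x y => if x ∈ W ∧ y ∈ W then s.d x y else 0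

/-- Cross feasibility on all vertices (factor 3/2). -/
def US.CF (s : US N) (Z : Finset (Fin N)) : Prop :=
  ∀ x ∈ s.V0, ∀ y ∈ s.V0, s.top x ≠ s.top y → 2 * (s.pt Z x + s.pt Z y) ≤ 3 * s.d x y

/-- Cheapest cross feasible sets. -/
def US.IsZmin (s : US N) (Z : Finset (Fin N)) : Prop :=
  Z ⊆ s.V0 ∧ s.CF Z ∧ ∀ Z', Z' ⊆ s.V0 → s.CF Z' → ∑ v ∈ Z, s.w v ≤ ∑ v ∈ Z', s.w v

noncomputable def US.zmin (s : US N) : Finset (Fin N) :=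
  if h : ∃ Z, s.IsZmin Z then Classical.choose h else ∅

/-- Vertices of the units with top in `A`. -/
noncomputable def US.VA (s : US N) (A : Finset (Fin N)) : Finset (Fin N) :=
  s.V0.filter fun x => s.top x ∈ A

/-- Cheapest cross feasible set for the units with top in `A`. -/
noncomputable def US.ZA (s : US N) (A : Finset (Fin N)) : Finset (Fin N) := (s.res (s.VA A)).zmin

/-- The hypothesis of the subsample `A1` of `A` (zero means: not in the subsample). -/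
noncomputable def US.hA (s : US N) (A A1 Z : Finset (Fin N)) (x : Fin N) : ℕ :=
  if x ∈ s.V0 ∧ s.top x ∈ A ∧ s.top x ∈ A1 then s.pt Z x + 1 else 0

/-- First caps (shifted by one; zero means anchored). -/
noncomputable def c1 (Kp : ℕ) (d : Fin N → Fin N → ℕ) (h : Fin N → ℕ) (y : Fin N) : ℕ :=
  ((range (Kp + 1)).filter fun u => ∀ x, h x ≠ 0 → 2 * ((h x - 1) + u) ≤ 3 * d x y).card

/-- Second caps. -/
noncomputable def c2 (Kp : ℕ) (d : Fin N → Fin N → ℕ) (B : Finset (Fin N)) (c : Fin N → ℕ)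
    (y : Fin N) : ℕ :=
  ((range (Kp + 1)).filter fun u => ∀ x ∈ B, c x ≠ 0 → 2 * ((c x - 1) + u) ≤ 3 * d x y).card

/-- Caps satisfied. -/
def US.IsPmin (s : US N) (c : Fin N → ℕ) (Z : Finset (Fin N)) : Prop :=
  Z ⊆ s.V0 ∧ (∀ x ∈ s.V0, s.pt Z x + 1 ≤ c x) ∧
  ∀ Z', Z' ⊆ s.V0 → (∀ x ∈ s.V0, s.pt Z' x + 1 ≤ c x) → ∑ v ∈ Z, s.w v ≤ ∑ v ∈ Z', s.w v

noncomputable def US.pmin (s : US N) (c : Fin N → ℕ) : Finset (Fin N) :=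
  if h : ∃ Z, s.IsPmin c Z then Classical.choose h else ∅

/-- The cheapest absorbed set of the unit `l` respecting the caps. -/
noncomputable def US.piZ (s : US N) (c : Fin N → ℕ) (l : Fin N) : Finset (Fin N) :=
  (s.res (s.un l)).pmin (fun x => if x ∈ s.un l then c x else 0)

/-- Units with an anchored vertex. -/
def US.anch (s : US N) (c : Fin N → ℕ) (l : Fin N) : Prop := ∃ x ∈ s.un l, c x = 0

/-- Candidate partners of `y`. -/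
noncomputable def Cd (d : Fin N → Fin N → ℕ) (c1 c2 : Fin N → ℕ) (y : Fin N) : Finset (Fin N) :=
  univ.filter fun x => c1 x ≠ 0 ∧ c2 y ≠ 0 ∧ 3 * d x y < 2 * ((c1 x - 1) + (c2 y - 1))

/-- Exceptional units of the sample. -/
def US.exc (s : US N) (Z B : Finset (Fin N)) (c : Fin N → ℕ) (l : Fin N) : Prop :=
  ∃ x ∈ B, c x ≠ 0 ∧ ∃ y ∈ s.un l, 3 * s.d x y < 2 * ((c x - 1) + s.pt Z y)

/-- Basic facts on restrictions and minimizers. -/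
def S_USB : Prop := ∀ (N : ℕ) (s : US N) (k M Kp : ℕ), s.Ok k M Kp →
  (∀ A, (∀ Z x, x ∈ s.VA A → (s.res (s.VA A)).pt Z x = s.pt Z x) ∧
    s.ZA A ⊆ s.VA A ∧
    (∀ x ∈ s.VA A, ∀ y ∈ s.VA A, s.top x ≠ s.top y →
      2 * (s.pt (s.ZA A) x + s.pt (s.ZA A) y) ≤ 3 * s.d x y) ∧
    (∀ Z', Z' ⊆ s.VA A → (∀ x ∈ s.VA A, ∀ y ∈ s.VA A, s.top x ≠ s.top y →
      2 * (s.pt Z' x + s.pt Z' y) ≤ 3 * s.d x y) → ∑ v ∈ s.ZA A, s.w v ≤ ∑ v ∈ Z', s.w v)) ∧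
  (∀ c l, ¬ s.anch c l → s.piZ c l ⊆ s.un l ∧ (∀ x ∈ s.un l, s.pt (s.piZ c l) x + 1 ≤ c x) ∧
    (∀ Z', Z' ⊆ s.un l → (∀ x ∈ s.un l, s.pt Z' x + 1 ≤ c x) →
      ∑ v ∈ s.piZ c l, s.w v ≤ ∑ v ∈ Z', s.w v)) ∧
  (∀ c l, s.piZ c l ⊆ s.un l) ∧
  (∀ l, ∀ x ∈ s.un l, s.ch x ⊆ s.un l) ∧
  (∀ l, ∑ v ∈ s.un l, s.w v ≤ k * M) ∧
  (∀ Z x, x ∈ s.V0 → s.pt Z x ≤ Kp) ∧
  (∀ Z x y, x ∈ s.V0 → y ∈ s.V0 → s.top x ≠ s.top y → s.cw Z x y = s.pt Z x + s.pt Z y) ∧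
  (∀ (A : Finset (Fin N)) (g : Fin N → ℕ), ∑ v ∈ s.VA A, g v = ∑ l ∈ A, ∑ v ∈ s.un l, g v)

/-- The caps are downward closed counts. -/
def S_CAPS : Prop := ∀ (N Kp : ℕ) (d : Fin N → Fin N → ℕ),
  (∀ (h : Fin N → ℕ) (y : Fin N), c1 Kp d h y ≤ Kp + 1 ∧
    ∀ u ≤ Kp, (u < c1 Kp d h y ↔ ∀ x, h x ≠ 0 → 2 * ((h x - 1) + u) ≤ 3 * d x y)) ∧
  (∀ (B : Finset (Fin N)) (c : Fin N → ℕ) (y : Fin N), c2 Kp d B c y ≤ Kp + 1 ∧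
    ∀ u ≤ Kp, (u < c2 Kp d B c y ↔ ∀ x ∈ B, c x ≠ 0 → 2 * ((c x - 1) + u) ≤ 3 * d x y))

/-- Uniform convergence over hypotheses of small support. -/
def S_2A : Prop := ∀ (K a : ℕ) (W ε pf : ℝ), 1 ≤ a → 0 < W → 0 < ε → 0 < pf →
  ∃ δ1 : ℝ, 0 < δ1 ∧ ∃ N0 : ℕ, ∀ N : ℕ, N0 ≤ N → ∀ F : (Fin N → Fin (K + 1)) → Fin N → ℝ,
    (∀ h v, 0 ≤ F h v ∧ F h v ≤ W) →
    pr (fun ω : Fin N → Fin a => ∃ h : Fin N → Fin (K + 1),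
      ((univ.filter fun v => (h v : ℕ) ≠ 0).card : ℝ) ≤ δ1 * N ∧
      a * ∑ v ∈ zs ω, F h v + ε * N ≤ ∑ v, F h v) ≤ pf

/-- Expected number of exceptional units. -/
def S_2B : Prop := ∀ (N : ℕ) (s : US N) (k M Kp t b : ℕ), s.Ok k M Kp → 1 ≤ t → 1 ≤ b →
  ∀ (A Z : Finset (Fin N)),
  ex (fun ω : (Fin N → Fin t) × (Fin N → Fin b) =>
    ((A.filter fun l => s.exc Z (zs ω.2) (c1 Kp s.d (s.hA A (zs ω.1) Z)) l).card : ℝ))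
    ≤ N * (Kp + 1) * t / b

/-- Expected number of candidate pairs. -/
def S_2C : Prop := ∀ (N Kp b : ℕ) (d : Fin N → Fin N → ℕ) (c : Fin N → ℕ), 1 ≤ b →
  (∀ x, c x ≤ Kp + 1) →
  ex (fun ω : Fin N → Fin b => ∑ y, ((Cd d c (c2 Kp d (zs ω) c) y).card : ℝ)) ≤ N * (Kp + 1) * b

/-- Non exceptional units of the sample. -/
def S_2D : Prop := ∀ (N : ℕ) (s : US N) (k M Kp : ℕ), s.Ok k M Kp → ∀ A A1 B : Finset (Fin N),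
  ∀ l ∈ A, l ∉ A1 → ¬ s.exc (s.ZA A) B (c1 Kp s.d (s.hA A A1 (s.ZA A))) l →
  ¬ s.anch (fun y => min (c1 Kp s.d (s.hA A A1 (s.ZA A)) y)
      (c2 Kp s.d B (c1 Kp s.d (s.hA A A1 (s.ZA A))) y)) l ∧
  ∑ v ∈ s.piZ (fun y => min (c1 Kp s.d (s.hA A A1 (s.ZA A)) y)
      (c2 Kp s.d B (c1 Kp s.d (s.hA A A1 (s.ZA A))) y)) l, s.w v
    ≤ ∑ v ∈ s.ZA A ∩ s.un l, s.w v

/-- The sample optimum is bounded by any feasible set. -/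
def S_2E : Prop := ∀ (N : ℕ) (s : US N) (k M Kp : ℕ), s.Ok k M Kp → ∀ A Z' : Finset (Fin N),
  (∀ x ∈ s.V0, ∀ y ∈ s.V0, 4 * s.cw Z' x y ≤ 5 * s.d x y) →
  ∑ v ∈ s.ZA A, s.w v ≤ ∑ l ∈ A, ∑ v ∈ Z' ∩ s.un l, s.w v

/-- Seeds of the dense stage. -/
abbrev Om2 (N a t b : ℕ) : Type := (Fin N → Fin a) × (Fin N → Fin t) × (Fin N → Fin b)

/-- First caps of the dense stage. -/
noncomputable def US.k1 (s : US N) (Kp : ℕ) (A A1 : Finset (Fin N)) : Fin N → ℕ :=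
  c1 Kp s.d (s.hA A A1 (s.ZA A))

/-- Second caps of the dense stage. -/
noncomputable def US.k2 (s : US N) (Kp : ℕ) (A A1 B : Finset (Fin N)) : Fin N → ℕ :=
  c2 Kp s.d B (s.k1 Kp A A1)

/-- **The dense stage.** -/
def S_ST2 : Prop := ∀ (k M Kp a bmin : ℕ) (ε pf : ℝ), 1 ≤ a → 0 < ε → 0 < pf →
  ∃ (t b : ℕ) (C : ℝ) (N0 : ℕ), 1 ≤ t ∧ 1 ≤ b ∧ bmin ≤ b ∧ 0 < C ∧ ∀ N : ℕ, N0 ≤ N →
    ∀ s : US N, s.Ok k M Kp → ∀ Z' : Finset (Fin N), Z' ⊆ s.V0 →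
    (∀ x ∈ s.V0, ∀ y ∈ s.V0, 4 * s.cw Z' x y ≤ 5 * s.d x y) →
    pr (fun ω : Om2 N a t b => ¬
      (((univ.filter fun l => s.anch (fun y => min (s.k1 Kp (zs ω.1) (zs ω.2.1) y)
          (s.k2 Kp (zs ω.1) (zs ω.2.1) (zs ω.2.2) y)) l).card : ℝ) ≤ ε * N ∧
        ((∑ l ∈ univ.filter (fun l => ¬ s.anch (fun y => min (s.k1 Kp (zs ω.1) (zs ω.2.1) y)
          (s.k2 Kp (zs ω.1) (zs ω.2.1) (zs ω.2.2) y)) l),
          ∑ v ∈ s.piZ (fun y => min (s.k1 Kp (zs ω.1) (zs ω.2.1) y)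
          (s.k2 Kp (zs ω.1) (zs ω.2.1) (zs ω.2.2) y)) l, s.w v : ℕ) : ℝ)
          ≤ ((∑ v ∈ Z', s.w v : ℕ) : ℝ) + ε * N ∧
        ∑ y, ((Cd s.d (s.k1 Kp (zs ω.1) (zs ω.2.1))
          (s.k2 Kp (zs ω.1) (zs ω.2.1) (zs ω.2.2)) y).card : ℝ) ≤ C * N)) ≤ pf

/-- Light units. -/
def US.light (s : US N) (c1 c2 : Fin N → ℕ) (Δ2 : ℕ) (l : Fin N) : Prop :=
  (s.un l).Nonempty ∧ ¬ s.anch (fun y => min (c1 y) (c2 y)) l ∧
  ∑ y ∈ s.un l, (Cd s.d c1 c2 y).card ≤ Δ2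

/-- Neighbours in the violation graph. -/
noncomputable def US.nbr (s : US N) (c1 c2 : Fin N → ℕ) (Δ2 : ℕ) (l : Fin N) : Finset (Fin N) :=
  univ.filter fun l' => l' ≠ l ∧ s.light c1 c2 Δ2 l ∧ s.light c1 c2 Δ2 l' ∧
    ∃ x ∈ s.un l, ∃ y ∈ s.un l', 3 * s.d x y <
      2 * (s.pt (s.piZ (fun y => min (c1 y) (c2 y)) l) x +
        s.pt (s.piZ (fun y => min (c1 y) (c2 y)) l') y)

/-- Colour conflicts. -/
def US.conf (s : US N) (c1 c2 : Fin N → ℕ) (Δ2 : ℕ) {Q : ℕ} (χ : Fin N → Fin Q) (l : Fin N) :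
    Prop :=
  (∃ l' ∈ s.nbr c1 c2 Δ2 l, χ l' = χ l) ∨
  ∃ l' ∈ s.nbr c1 c2 Δ2 l, ∃ l'' ∈ s.nbr c1 c2 Δ2 l, l' ≠ l'' ∧ χ l' = χ l''

/-- Good units. -/
def US.good (s : US N) (c1 c2 : Fin N → ℕ) (Δ2 : ℕ) {Q : ℕ} (χ : Fin N → Fin Q) (l : Fin N) :
    Prop :=
  s.light c1 c2 Δ2 l ∧ ¬ s.conf c1 c2 Δ2 χ l

/-- The unit matched with `l` in round `r`. -/
def US.IsMate (s : US N) (c1 c2 : Fin N → ℕ) (Δ2 : ℕ) {Q : ℕ} (χ : Fin N → Fin Q) (r : ℕ)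
    (l l' : Fin N) : Prop :=
  l' ∈ s.nbr c1 c2 Δ2 l ∧ s.good c1 c2 Δ2 χ l ∧ s.good c1 c2 Δ2 χ l' ∧
  (((χ l : ℕ) = r / Q ∧ (χ l' : ℕ) = r % Q) ∨ ((χ l : ℕ) = r % Q ∧ (χ l' : ℕ) = r / Q))

noncomputable def US.mate (s : US N) (c1 c2 : Fin N → ℕ) (Δ2 : ℕ) {Q : ℕ} (χ : Fin N → Fin Q)
    (r : ℕ) (l : Fin N) : Fin N :=
  if h : ∃ l', s.IsMate c1 c2 Δ2 χ r l l' then Classical.choose h else l

/-- Greedy sets. -/
def US.IsGrd (s : US N) (P : Finset (Fin N × Fin N)) (S Nw : Finset (Fin N)) : Prop :=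
  Disjoint Nw S ∧ Nw ⊆ P.biUnion (fun e => symmDiff (s.ch e.1) (s.ch e.2)) ∧
    (∀ e ∈ P, 2 * s.cw (S ∪ Nw) e.1 e.2 ≤ 3 * s.d e.1 e.2) ∧
    ∀ Z : Finset (Fin N), (∀ e ∈ P, 4 * s.cw Z e.1 e.2 ≤ 5 * s.d e.1 e.2) →
      ∑ v ∈ Nw, s.w v ≤ 6 * ∑ v ∈ Nw ∩ Z, s.w v

noncomputable def US.grd (s : US N) (P : Finset (Fin N × Fin N)) (S : Finset (Fin N)) :
    Finset (Fin N) :=
  if h : ∃ Nw, s.IsGrd P S Nw then Classical.choose h else ∅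

/-- Greedy set for all pairs of the set `W` (a union of units). -/
noncomputable def US.gr (s : US N) (W S : Finset (Fin N)) : Finset (Fin N) :=
  (s.res W).grd (W ×ˢ W) S

/-- States of the sparse stage. -/
noncomputable def US.st (s : US N) (c1 c2 : Fin N → ℕ) (Δ2 : ℕ) {Q : ℕ} (χ : Fin N → Fin Q) :
    ℕ → Fin N → Finset (Fin N)
  | 0, l => s.piZ (fun y => min (c1 y) (c2 y)) l ∪
      s.gr (s.un l) (s.piZ (fun y => min (c1 y) (c2 y)) l)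
  | r + 1, l => s.st c1 c2 Δ2 χ r l ∪
      (if s.mate c1 c2 Δ2 χ r l = l then ∅ else
        (s.gr (s.un l ∪ s.un (s.mate c1 c2 Δ2 χ r l))
          (s.st c1 c2 Δ2 χ r l ∪ s.st c1 c2 Δ2 χ r (s.mate c1 c2 Δ2 χ r l))) ∩ s.un l)

/-- The final vertex set. -/
noncomputable def US.XX (s : US N) (c1 c2 : Fin N → ℕ) (Δ2 : ℕ) {Q : ℕ} (χ : Fin N → Fin Q) :
    Finset (Fin N) :=
  s.V0.filter fun x => s.good c1 c2 Δ2 χ (s.top x)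

/-- The final absorbed set. -/
noncomputable def US.Zf (s : US N) (c1 c2 : Fin N → ℕ) (Δ2 : ℕ) {Q : ℕ} (χ : Fin N → Fin Q) :
    Finset (Fin N) :=
  (s.XX c1 c2 Δ2 χ).filter fun x => x ∈ s.st c1 c2 Δ2 χ (Q * Q) (s.top x)

/-- **The sparse stage.** -/
def S_ST3 : Prop := ∀ (N : ℕ) (s : US N) (k M Kp : ℕ), s.Ok k M Kp →
  ∀ (c1 c2 : Fin N → ℕ) (Δ2 Q : ℕ) (χ : Fin N → Fin Q),
  (∀ x ∈ s.XX c1 c2 Δ2 χ, ∀ y ∈ s.XX c1 c2 Δ2 χ,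
    2 * s.cw (s.Zf c1 c2 Δ2 χ) x y ≤ 3 * s.d x y) ∧
  ∀ Z' : Finset (Fin N), (∀ x ∈ s.V0, ∀ y ∈ s.V0, 4 * s.cw Z' x y ≤ 5 * s.d x y) →
    ∑ v ∈ s.Zf c1 c2 Δ2 χ, s.w v ≤
      ∑ l ∈ univ.filter (fun l => ¬ s.anch (fun y => min (c1 y) (c2 y)) l),
        ∑ v ∈ s.piZ (fun y => min (c1 y) (c2 y)) l, s.w v + 6 * ∑ v ∈ Z', s.w v

/-- Few light units have a colour conflict; few units are heavy. -/
def S_COL : Prop := ∀ (N : ℕ) (s : US N) (k M Kp : ℕ), s.Ok k M Kp →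
  ∀ (c1 c2 : Fin N → ℕ) (Δ2 Q : ℕ), 1 ≤ Q →
  ex (fun χ : Fin N → Fin Q => ((univ.filter fun l => s.light c1 c2 Δ2 l ∧
    s.conf c1 c2 Δ2 χ l).card : ℝ)) ≤ N * (Δ2 + 1) ^ 2 / Q ∧
  ((univ.filter fun l => (s.un l).Nonempty ∧ ¬ s.anch (fun y => min (c1 y) (c2 y)) l ∧
    ¬ s.light c1 c2 Δ2 l).card : ℝ) * Δ2 ≤ ∑ y, ((Cd s.d c1 c2 y).card : ℝ)

end Pool.Agent.H699.T
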