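import Pool.Agent.H699.P.AVG
import Pool.Agent.H699.P.BADP
import Pool.Agent.H699.P.BND
import Pool.Agent.H699.P.CLUS
import Pool.Agent.H699.P.COL
import Pool.Agent.H699.P.COLL
import Pool.Agent.H699.P.COUNT
import Pool.Agent.H699.P.D1LOC
import Pool.Agent.H699.P.D2
import Pool.Agent.H699.P.DIAG
import Pool.Agent.H699.P.DINEQ
import Pool.Agent.H699.P.ETA
import Pool.Agent.H699.P.EULER
import Pool.Agent.H699.P.GRD
import Pool.Agent.H699.P.INNER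
import Pool.Agent.H699.P.LOC
import Pool.Agent.H699.P.LOW
import Pool.Agent.H699.P.LST3
import Pool.Agent.H699.P.MSTLOW
import Pool.Agent.H699.P.NET
import Pool.Agent.H699.P.P1
import Pool.Agent.H699.P.P2
import Pool.Agent.H699.P.P2BC
import Pool.Agent.H699.P.PAR
import Pool.Agent.H699.P.PLOC
import Pool.Agent.H699.P.PRIM1
import Pool.Agent.H699.P.PRIM2
import Pool.Agent.H699.P.RB
import Pool.Agent.H699.P.ST2
import Pool.Agent.H699.P.ST3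
import Pool.Agent.H699.P.SUB
import Pool.Agent.H699.P.T2DE
import Pool.Agent.H699.P.TSPBAS
import Pool.Agent.H699.P.TSPPERM
import Pool.Agent.H699.P.TwoA
import Pool.Agent.H699.P.U1
import Pool.Agent.H699.P.U2
import Pool.Agent.H699.P.UNIT
import Pool.Agent.H699.P.USB
import Pool.Agent.H699.P.SYS
import Pool.Agent.H699.P.LGL
import Pool.Agent.H699.P.EST
import Pool.Agent.H699.P.LOUT
import Pool.Agent.H699.P.LUN
import Pool.Agent.H699.P.CORR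

/-!
# Assembly
-/

set_option autoImplicit false

namespace Pool.Agent.H699.T

open Finset Classical

theorem a_TSPLE : S_TSPLE := H921.T.TSPBAS.t_TSPLE
theorem a_TSPATT : S_TSPATT := H921.T.TSPBAS.t_TSPATT
theorem a_TSPUN : S_TSPUN := H921.T.TSPBAS.t_TSPUN
theorem a_TSPPERM : S_TSPPERM := H286.T.TSPPERM.t_TSPPERM a_TSPLE a_TSPATT
theorem a_EULER : S_EULER := H551.T.EULER.t_EULER a_TSPLE
theorem a_U1 : S_U1 := H127.T.U1.t_U1 a_EULER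
theorem a_GRD : S_GRD := H747.T.GRD.t_GRD
theorem a_U2 : S_U2 := H356.T.U2.t_U2 a_U1
theorem a_LOW : S_LOW := H323.T.LOW.t_LOW a_TSPATT
theorem a_MSTLOW : S_MSTLOW := H331.T.MSTLOW.t_MSTLOW a_TSPATT
theorem a_EXBASIC : S_EXBASIC := H94.T.P1.t_EXBASIC
theorem a_AVOID : S_AVOID := H94.T.P1.t_AVOID
theorem a_EXSUM : S_EXSUM := H94.T.P1.t_EXSUM
theorem a_MISS : S_MISS := H94.T.P1.t_MISS
theorem a_CONC : S_CONC := H323.T.P2.t_CONC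
theorem a_COUNT : S_COUNT := H225.T.COUNT.t_COUNT
theorem a_INNER : S_INNER := H399.T.INNER.t_INNER
theorem a_CLUS : S_CLUS := H177.T.CLUS.t_CLUS
theorem a_PAR : S_PAR := H695.T.PAR.t_PAR a_INNER a_CLUS
theorem a_PRIM1 : S_PRIM1 := H935.T.PRIM1.t_PRIM1
theorem a_KEY : S_KEY := H935.T.PRIM1.t_KEY
theorem a_PRIM2 : S_PRIM2 := H996.T.PRIM2.t_PRIM2 a_CLUS a_PRIM1
theorem a_PRIM3 : S_PRIM3 := H996.T.PRIM2.t_PRIM3 a_CLUS a_PAR a_PRIM1 a_PRIM2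
theorem a_PLOC : S_PLOC := H747.T.PLOC.t_PLOC a_CLUS a_PAR a_PRIM1 a_PRIM2
theorem a_BADP : S_BADP := H401.T.BADP.t_BADP a_AVOID a_PRIM1
theorem a_HUBP : S_HUBP := H401.T.BADP.t_HUBP a_EXBASIC a_AVOID
theorem a_UNIT : S_UNIT := H225.T.UNIT.t_UNIT a_PAR a_PRIM2 a_PRIM3
theorem a_LOCBASIC : S_LOCBASIC := H512.T.LOC.t_LOCBASIC
theorem a_COMAP : S_COMAP := H512.T.LOC.t_COMAP
theorem a_STEP : S_STEP := H512.T.LOC.t_STEP
theorem a_NET : S_NET := H687.T.NET.t_NET a_TSPLE a_TSPATT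
theorem a_D1 : S_D1 := H687.T.NET.t_D1 a_NET
theorem a_D1LOC : S_D1LOC := H282.T.D1LOC.t_D1LOC a_LOCBASIC a_NET a_D1
theorem a_D2 : S_D2 := H177.T.D2.t_D2
theorem a_COLL : S_COLL := H189.T.COLL.t_COLL a_TSPLE a_TSPATT a_TSPUN
theorem a_AVG : S_AVG := H286.T.AVG.t_AVG
theorem a_TSPN : S_TSPN := H286.T.AVG.t_TSPN a_TSPLE a_TSPATT
theorem a_DINEQ : S_DINEQ :=
  H914.T.DINEQ.t_DINEQ a_TSPLE a_TSPATT a_NET a_D1 a_D2 a_COLL a_AVG a_TSPN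
theorem a_USB : S_USB := H353.T.USB.t_USB
theorem a_CAPS : S_CAPS := H353.T.USB.t_CAPS
theorem a_2A : S_2A := H474.T.TwoA.t_2A a_EXBASIC a_CONC a_COUNT
theorem a_2B : S_2B := H687.T.P2BC.t_2B a_EXBASIC a_EXSUM a_MISS a_CAPS
theorem a_2C : S_2C := H687.T.P2BC.t_2C a_EXBASIC a_MISS a_CAPS
theorem a_2D : S_2D := H17.T.T2DE.t_2D a_USB a_CAPS
theorem a_2E : S_2E := H17.T.T2DE.t_2E a_USB
theorem a_ST2 : S_ST2 :=
  H388.T.ST2.t_ST2 a_EXBASIC a_AVOID a_EXSUM a_CONC a_USB a_CAPS a_2A a_2B a_2C a_2D a_2E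
theorem a_ST3 : S_ST3 := H79.T.ST3.t_ST3 a_GRD a_USB
theorem a_COL : S_COL := H729.T.COL.t_COL a_EXBASIC a_USB
theorem a_RB : S_RB := H313.T.RB.t_RB a_EXBASIC a_AVOID a_EXSUM a_KEY a_BADP a_HUBP
theorem a_LST3 : S_LST3 := H79.T.LST3.t_LST3 a_LOCBASIC a_USB a_GRD

theorem a_SYS : S_SYS := H356.T.SYS.t_SYS a_KEY a_PAR a_PRIM2 a_UNIT a_U2 a_MSTLOW
theorem a_LGL : S_LGL := H356.T.LGL.t_LGL a_LOCBASIC a_USB
theorem a_EST : S_EST := H356.T.EST.t_EST a_TSPLE a_TSPATT a_LOW a_USB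

/-- Everything from the bounded theorem on. -/
theorem a_FROZEN_of_BND (h : S_BND) : S_FROZEN :=
  H161.T.DIAG.t_DIAG a_TSPATT a_TSPLE a_TSPPERM a_LOCBASIC a_STEP
    (H218.T.ETA.t_ETA a_EXBASIC a_LOCBASIC a_TSPLE a_TSPATT a_NET a_D1 a_D1LOC a_D2 a_DINEQ
      (H603.T.t_SUB a_TSPLE a_TSPATT a_EXBASIC a_LOCBASIC a_COMAP h))

/-- Everything from the two last steps. -/
theorem a_FROZEN_of (hL : S_LUN) (hC : S_CORR) : S_FROZEN :=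
  a_FROZEN_of_BND (H996.T.BND.t_BND a_EXBASIC
    (H665.T.LOUT.t_LOUT a_LOCBASIC a_SYS hL a_LGL a_LST3) hC)

theorem a_LUN : S_LUN :=
  H230.T.LUN.t_LUN a_LOCBASIC a_KEY a_CLUS a_PAR a_PRIM1 a_PRIM2 a_PRIM3 a_PLOC a_UNIT
theorem a_CORR : S_CORR :=
  H17.T.CORR.t_CORR a_EXBASIC a_EXSUM a_CONC a_SYS a_RB a_USB a_ST2 a_ST3 a_COL a_EST

theorem a_FROZEN : S_FROZEN := a_FROZEN_of a_LUN a_CORR

end Pool.Agent.H699.T
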