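import Mathlib

/-!
# Metric tours: basic definitions and the deterministic lemmas (statements)
-/

set_option autoImplicit false

namespace Pool.Agent.H699.T

open Finset Classical

/-- Length of the walk through a list. -/
noncomputable def walk {α : Type} (d : α → α → ℝ) : List α → ℝ
  | [] => 0
  | [_] => 0
  | a :: b :: l => d a b + walk d (b :: l)

/-- Length of the closed tour through a list (returning to its head). -/
noncomputable def cyc {α : Type} (d : α → α → ℝ) : List α → ℝ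
  | [] => 0
  | a :: l => walk d (a :: (l ++ [a]))

/-- (Pseudo)metrics. -/
structure IsMet {α : Type} (d : α → α → ℝ) : Prop where
  self : ∀ x, d x x = 0
  symm : ∀ x y, d x y = d y x
  tri : ∀ x y z, d x z ≤ d x y + d y z

/-- Length of a shortest closed tour visiting all points of `S`. -/
noncomputable def tsp {α : Type} (d : α → α → ℝ) (S : Finset α) : ℝ :=
  sInf {c : ℝ | ∃ l : List α, (∀ x ∈ S, x ∈ l) ∧ c = cyc d l}

/-- Every closed tour through `S` is an upper bound. -/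
def S_TSPLE : Prop := ∀ (α : Type) (d : α → α → ℝ), IsMet d → ∀ (S : Finset α) (l : List α),
  (∀ x ∈ S, x ∈ l) → tsp d S ≤ cyc d l

/-- The optimum is attained by an enumeration of `S` without repetitions. -/
def S_TSPATT : Prop := ∀ (α : Type) (d : α → α → ℝ), IsMet d → ∀ (S : Finset α),
  ∃ l : List α, l.Nodup ∧ l.toFinset = S ∧ cyc d l = tsp d S

/-- Two tours with a common point can be merged. -/
def S_TSPUN : Prop := ∀ (α : Type) (d : α → α → ℝ), IsMet d → ∀ (S S' : Finset α),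
  (S ∩ S').Nonempty → tsp d (S ∪ S') ≤ tsp d S + tsp d S'

/-- The formula of the frozen statement. -/
def S_TSPPERM : Prop := ∀ (n : ℕ) (d : Fin n → Fin n → ℝ), IsMet d →
  (⨅ σ : Equiv.Perm (Fin n), ∑ i : Fin n, d (σ i) (σ (finRotate n i))) = tsp d univ

/-- Euler: a connected even multigraph (list of edges) spanning the points gives a closed tour. -/
def S_EULER : Prop := ∀ (α : Type) [Fintype α] (d : α → α → ℝ), IsMet d →
  ∀ E : List (α × α),
    (∀ v : α, Even ((E.map fun e => (if e.1 = v then 1 else 0) + (if e.2 = v then 1 else 0)).sum)) →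
    (∀ A : Finset α, A.Nonempty → A ≠ univ →
      ∃ e ∈ E, (e.1 ∈ A ∧ e.2 ∉ A) ∨ (e.1 ∉ A ∧ e.2 ∈ A)) →
    tsp d univ ≤ (E.map fun e => d e.1 e.2).sum

/-- The vertices different from the root on the path from `v` to the root (including `v`);
a vertex stands for the edge to its parent. -/
noncomputable def anc {α : Type} [Fintype α] (p : α → α) (r v : α) : Finset α :=
  univ.filter fun u => u ≠ r ∧ ∃ i : ℕ, p^[i] v = u

/-- **Upper bound.** A rooted tree on a metric space and a set `E` of pairs: if `U` is the set of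
tree edges lying on the tree path of a pair of `E`, then
`TSP ≤ 2 w(T) - (w(U) - d(E)) / 2`. -/
def S_U1 : Prop := ∀ (α : Type) [Fintype α] (d : α → α → ℝ), IsMet d →
  ∀ (r : α) (p : α → α) (rk : α → ℕ), (∀ v, v ≠ r → rk (p v) < rk v) → p r = r →
  ∀ E : Finset (α × α),
    tsp d univ ≤ 2 * ∑ v ∈ univ.erase r, d v (p v) -
      (∑ v ∈ E.biUnion (fun e => symmDiff (anc p r e.1) (anc p r e.2)), d v (p v)
        - ∑ e ∈ E, d e.1 e.2) / 2

/-- Abstract greedy lemma (factors 3/2 and 5/4). -/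
def S_GRD : Prop := ∀ (α ι : Type) (w : α → ℕ) (cov : ι → Finset α) (dd : ι → ℕ)
  (P : Finset ι) (S : Finset α),
  ∃ Nw : Finset α, Disjoint Nw S ∧ Nw ⊆ P.biUnion cov ∧
    (∀ e ∈ P, 2 * ∑ v ∈ cov e \ (S ∪ Nw), w v ≤ 3 * dd e) ∧
    ∀ Z : Finset α, (∀ e ∈ P, 4 * ∑ v ∈ cov e \ Z, w v ≤ 5 * dd e) →
      ∑ v ∈ Nw, w v ≤ 6 * ∑ v ∈ Nw ∩ Z, w v

/-- **Upper bound, second form.** -/
def S_U2 : Prop := ∀ (α : Type) [Fintype α] (d : α → α → ℕ), IsMet (fun x y => (d x y : ℝ)) →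
  ∀ (r : α) (p : α → α) (rk : α → ℕ), (∀ v, v ≠ r → rk (p v) < rk v) → p r = r →
  ∃ Z : Finset α, r ∉ Z ∧
    (∀ x y, 4 * ∑ v ∈ symmDiff (anc p r x) (anc p r y) \ Z, d v (p v) ≤ 5 * d x y) ∧
    tsp (fun x y => (d x y : ℝ)) univ ≤
      2 * ((∑ v ∈ univ.erase r, d v (p v) : ℕ) : ℝ) - ((∑ v ∈ Z, d v (p v) : ℕ) : ℝ) / 10

/-- **Lower bound** (abstract, by counting crossings of cuts). -/
def S_LOW : Prop := ∀ (α : Type) (d : α → α → ℝ), IsMet d → ∀ (X : Finset α)
  (ch : α → Finset α) (w : α → ℝ) (Z D : Finset α) (β : ℝ), (∀ v, 0 ≤ w v) →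
  (∀ x ∈ X, ∀ y ∈ X, ∑ v ∈ symmDiff (ch x) (ch y) \ Z, w v ≤ β * d x y) →
  (∀ v ∈ D, (∃ x ∈ X, v ∈ ch x) ∧ ∃ y ∈ X, v ∉ ch y) →
  2 * ∑ v ∈ D \ Z, w v ≤ β * tsp d X

/-- **Lower bound by the spanning forest** (counting long edges for every threshold). -/
def S_MSTLOW : Prop := ∀ (α : Type) [Fintype α] (d : α → α → ℕ),
  IsMet (fun x y => (d x y : ℝ)) → ∀ (D : Finset α) (w : α → ℕ) (r : α),
  (∀ t : ℕ, ∀ v ∈ D, t < w v →
    ¬ Relation.ReflTransGen (fun a b => d a b ≤ t) v r ∧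
    ∀ v' ∈ D, v' ≠ v → t < w v' → ¬ Relation.ReflTransGen (fun a b => d a b ≤ t) v v') →
  ((∑ v ∈ D, w v : ℕ) : ℝ) ≤ tsp (fun x y => (d x y : ℝ)) univ

end Pool.Agent.H699.T
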