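import Pool.Agent.H699.T.Unit

/-!
# The bounded theorem: definitions and statements
-/

set_option autoImplicit false

namespace Pool.Agent.H699.T

open Finset Classical

variable {N : ℕ}

/-- The unit system of an integer metric and a root set. -/
noncomputable def usys (L Δ : ℕ) (R : Finset (Fin N)) (d : Fin N → Fin N → ℕ) : US N where
  V0 := V0 (key d) R L Δ
  top := top (key d) R L Δ
  ch := ch (key d) R L Δ
  w := fun v => d v (par (key d) R v)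
  d := d

/-- The forest of a root set: unit system, lower bound, upper bound. -/
def S_SYS : Prop := ∀ (N k L Δ : ℕ) (d : Fin N → Fin N → ℕ) (R : Finset (Fin N)), IMet k d →
  R.Nonempty →
  (usys L Δ R d).Ok k ((Δ + 1) ^ L) (k * L) ∧
  ((∑ v ∈ (usys L Δ R d).V0, (usys L Δ R d).w v : ℕ) : ℝ) ≤ tspI d ∧
  ∃ Z' : Finset (Fin N), Z' ⊆ (usys L Δ R d).V0 ∧
    (∀ x ∈ (usys L Δ R d).V0, ∀ y ∈ (usys L Δ R d).V0,
      4 * (usys L Δ R d).cw Z' x y ≤ 5 * d x y) ∧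
    tspI d ≤ 2 * ((∑ v ∈ (usys L Δ R d).V0, (usys L Δ R d).w v : ℕ) : ℝ) +
      2 * k * ((univ \ (usys L Δ R d).V0).card : ℝ) -
      ((∑ v ∈ Z', (usys L Δ R d).w v : ℕ) : ℝ) / 10

/-- Almost all vertices belong to the units. -/
def S_RB : Prop := ∀ (qmin : ℕ) (ε pf : ℝ), 0 < ε → 0 < pf → ∃ q L Δ N0 : ℕ, 1 ≤ q ∧ qmin ≤ q ∧
  ∀ N : ℕ, N0 ≤ N → ∀ (k : ℕ) (d : Fin N → Fin N → ℕ), IMet k d →
    pr (fun ω : Fin N → Fin q => ¬ ((zs ω).Nonempty ∧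
      ((univ \ V0 (key d) (zs ω) L Δ).card : ℝ) ≤ ε * N)) ≤ pf

/-- Everything about the unit of `v`. -/
noncomputable def US.vinf (s : US N) (v : Fin N) :
    Prop × Fin N × Finset (Fin N) × (Fin N → Finset (Fin N) × ℕ × (Fin N → ℕ)) :=
  (v ∈ s.V0, s.top v, s.un (s.top v),
    fun x => if x ∈ s.un (s.top v) then (s.ch x, s.w x, s.d x) else (∅, 0, fun _ => 0))

/-- Units can be explored with a bounded number of rows. -/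
def S_LUN : Prop := ∀ (k L Δ : ℕ), ∃ Ke : ℕ, ∀ (N : ℕ) (R : Finset (Fin N)), R.Nonempty →
  ∀ D : Set (Fin N → Fin N → ℕ), (∀ d ∈ D, IMet k d) →
    (∀ d ∈ D, ∀ d' ∈ D, ∀ r ∈ R, ∀ y, d r y = d' r y) →
    ∀ v : Fin N, LocOn D (Ke * N) (fun d => (usys L Δ R d).vinf v)

/-- Locality of the caps of the dense stage. -/
def S_LGL : Prop := ∀ (N k M Kp c0 : ℕ) (D : Set (Fin N → Fin N → ℕ))
  (s : (Fin N → Fin N → ℕ) → US N), (∀ d ∈ D, (s d).Ok k M Kp ∧ (s d).d = d) →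
  (∀ v, LocOn D c0 (fun d => (s d).vinf v)) → ∀ A A1 B : Finset (Fin N),
  LocOn D (A.card * c0 + B.card * N)
    (fun d => ((s d).k1 Kp A A1, (s d).k2 Kp A A1 B))

/-- Locality of the sparse stage. -/
def S_LST3 : Prop := ∀ (M Δ2 Q : ℕ), ∃ K : ℕ, ∀ (N k Kp c0 : ℕ) (D : Set (Fin N → Fin N → ℕ))
  (s : (Fin N → Fin N → ℕ) → US N), (∀ d ∈ D, (s d).Ok k M Kp ∧ (s d).d = d) →
  (∀ v, LocOn D c0 (fun d => (s d).vinf v)) → ∀ (c1 c2 : Fin N → ℕ) (χ : Fin N → Fin Q)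
  (v : Fin N), LocOn D (K * c0) (fun d => v ∈ (s d).Zf c1 c2 Δ2 χ)

/-- Lower bound for the tour from the final sets. -/
def S_EST : Prop := ∀ (N k M Kp : ℕ) (d : Fin N → Fin N → ℕ), IMet k d → ∀ s : US N,
  s.Ok k M Kp → s.d = d → ∀ XX Zf : Finset (Fin N), XX ⊆ s.V0 → Zf ⊆ XX →
  (∀ x ∈ XX, ∀ y ∈ XX, 2 * s.cw Zf x y ≤ 3 * s.d x y) →
  2 * (((∑ v ∈ XX, s.w v : ℕ) : ℝ) - ((∑ v ∈ Zf, s.w v : ℕ) : ℝ)) ≤ 3 / 2 * tspI d + 2 * (k * M)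

/-- Seeds of the bounded algorithm. -/
abbrev Om (N q a t b Q g : ℕ) : Type :=
  (Fin N → Fin q) × Om2 N a t b × (Fin N → Fin Q) × (Fin N → Fin g)

/-- Estimate of the weight of the forest. -/
noncomputable def wh (s : US N) {g : ℕ} (ω : Fin N → Fin g) : ℝ :=
  g * ∑ v ∈ zs ω, (if v ∈ s.V0 then (s.w v : ℝ) else 0)

/-- Estimate of the weight of a set. -/
noncomputable def zh (s : US N) (Z : Finset (Fin N)) {g : ℕ} (ω : Fin N → Fin g) : ℝ :=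
  g * ∑ v ∈ zs ω, (if v ∈ Z then (s.w v : ℝ) else 0)

/-- The output from the two estimates. -/
noncomputable def outv (e x z : ℝ) : ℝ :=
  if x ≤ 8 * z then (2 - 1 / 560) * x + 6 * e else 2 * x + 6 * e

/-- Seeds for which the algorithm reads few rows. -/
def small {q a t b Q g : ℕ} (ω : Om N q a t b Q g) : Prop :=
  (zs ω.1).Nonempty ∧ ((zs ω.1).card : ℝ) ≤ 2 * N / q ∧ ((zs ω.2.1.1).card : ℝ) ≤ 2 * N / a ∧
  ((zs ω.2.1.2.2).card : ℝ) ≤ 2 * N / b ∧ ((zs ω.2.2.2).card : ℝ) ≤ 2 * N / g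

/-- The first caps. -/
noncomputable def g1 (k L Δ : ℕ) {q a t b Q g : ℕ} (ω : Om N q a t b Q g)
    (d : Fin N → Fin N → ℕ) : Fin N → ℕ :=
  (usys L Δ (zs ω.1) d).k1 (k * L) (zs ω.2.1.1) (zs ω.2.1.2.1)

/-- The second caps. -/
noncomputable def g2 (k L Δ : ℕ) {q a t b Q g : ℕ} (ω : Om N q a t b Q g)
    (d : Fin N → Fin N → ℕ) : Fin N → ℕ :=
  (usys L Δ (zs ω.1) d).k2 (k * L) (zs ω.2.1.1) (zs ω.2.1.2.1) (zs ω.2.1.2.2)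

/-- The output of the bounded algorithm. -/
noncomputable def outB (k L Δ Δ2 : ℕ) (e : ℝ) {q a t b Q g : ℕ} (ω : Om N q a t b Q g)
    (d : Fin N → Fin N → ℕ) : ℝ :=
  if small ω then
    outv e (wh (usys L Δ (zs ω.1) d) ω.2.2.2)
      (zh (usys L Δ (zs ω.1) d)
        ((usys L Δ (zs ω.1) d).Zf (g1 k L Δ ω d) (g2 k L Δ ω d) Δ2 ω.2.2.1) ω.2.2.2)
  else 0

/-- Query complexity of the bounded algorithm. -/
def S_LOUT : Prop := ∀ k L Δ : ℕ, ∃ Ke : ℕ, ∀ Δ2 Q : ℕ, ∃ K3 : ℕ, ∀ (N q a t b g : ℕ) (e : ℝ)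
  (ω : Om N q a t b Q g), ∃ c : ℕ,
    (c : ℝ) ≤ (2 * N / q) * N + (2 * N / a) * (Ke * N) + (2 * N / b) * N + (2 * N / g) * (K3 * N) ∧
    LocOn {d : Fin N → Fin N → ℕ | IMet k d} c (outB k L Δ Δ2 e ω)

/-- Correctness of the bounded algorithm. -/
def S_CORR : Prop := ∀ (k qmin : ℕ) (ε pf : ℝ), 0 < ε → 0 < pf →
  ∃ q L Δ : ℕ, 1 ≤ q ∧ qmin ≤ q ∧ ∀ a bmin : ℕ, 1 ≤ a →
    ∃ t b Δ2 Q : ℕ, 1 ≤ t ∧ 1 ≤ b ∧ bmin ≤ b ∧ 1 ≤ Q ∧ ∀ g : ℕ, 1 ≤ g →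
      ∃ N0 : ℕ, ∀ N : ℕ, N0 ≤ N → ∀ d : Fin N → Fin N → ℕ, IMet k d →
        pr (fun ω : Om N q a t b Q g => ¬ (tspI d ≤ outB k L Δ Δ2 (ε / 16 * N) ω d ∧
          outB k L Δ Δ2 (ε / 16 * N) ω d ≤ (2 - 1 / 560) * tspI d + ε * N)) ≤ pf

end Pool.Agent.H699.T
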