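import Pool.Agent.H699.T.DT

/-!
# Decomposition of a general metric into clusters of bounded diameter
-/

set_option autoImplicit false

namespace Pool.Agent.H699.T

open Finset Classical

variable {n : ℕ}

/-- Distance to a finite set (zero for the empty set). -/
noncomputable def dS (d : Fin n → Fin n → ℝ) (S : Finset (Fin n)) (y : Fin n) : ℝ :=
  if h : S.Nonempty then S.inf' h (fun x => d x y) else 0

/-- A point farthest from `S`. -/
noncomputable def far [NeZero n] (d : Fin n → Fin n → ℝ) (S : Finset (Fin n)) : Fin n :=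
  if h : ∃ y, ∀ y', dS d S y' ≤ dS d S y then Classical.choose h else 0

/-- Farthest first traversal. -/
noncomputable def net [NeZero n] (d : Fin n → Fin n → ℝ) : ℕ → Finset (Fin n)
  | 0 => ∅
  | i + 1 => insert (far d (net d i)) (net d i)

/-- Covering radius of the net. -/
noncomputable def rad [NeZero n] (d : Fin n → Fin n → ℝ) (m : ℕ) : ℝ :=
  dS d (net d m) (far d (net d m))

/-- Distance estimate through the net. -/
noncomputable def dh [NeZero n] (d : Fin n → Fin n → ℝ) (m : ℕ) (x y : Fin n) : ℝ :=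
  if h : (net d m).Nonempty then (net d m).inf' h (fun z => d z x + d z y) else 0

/-- Dense points: more than `θ n` points at estimated distance at most `K0 * rad`. -/
def Dense [NeZero n] (d : Fin n → Fin n → ℝ) (m : ℕ) (K0 θ : ℝ) (v : Fin n) : Prop :=
  θ * n < ((univ.filter fun y => dh d m v y ≤ K0 * rad d m).card : ℝ)

/-- Maximal separated sets of dense points. -/
def IsCen [NeZero n] (d : Fin n → Fin n → ℝ) (m : ℕ) (K0 θ : ℝ) (C : Finset (Fin n)) : Prop :=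
  (∀ c ∈ C, Dense d m K0 θ c) ∧
  (∀ c ∈ C, ∀ c' ∈ C, c ≠ c' → (2 * K0 + 2) * rad d m < dh d m c c') ∧
  ∀ v, Dense d m K0 θ v → ∃ c ∈ C, dh d m c v ≤ (2 * K0 + 2) * rad d m

noncomputable def cen [NeZero n] (d : Fin n → Fin n → ℝ) (m : ℕ) (K0 θ : ℝ) : Finset (Fin n) :=
  if h : ∃ C, IsCen d m K0 θ C then Classical.choose h else ∅

/-- Points all of whose distances are (almost) known. -/
def Expl [NeZero n] (d : Fin n → Fin n → ℝ) (m : ℕ) (K0 θ : ℝ) (x : Fin n) : Prop :=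
  x ∈ cen d m K0 θ ∨ ¬ Dense d m K0 θ x

/-- The known distances. -/
noncomputable def dt [NeZero n] (d : Fin n → Fin n → ℝ) (m : ℕ) (K0 θ : ℝ) (x y : Fin n) : ℝ :=
  if x ∈ cen d m K0 θ ∨ y ∈ cen d m K0 θ then d x y
  else if (¬ Dense d m K0 θ x ∨ ¬ Dense d m K0 θ y) ∧ dh d m x y ≤ K0 * rad d m then d x y
  else dh d m x y

/-- The farthest first traversal. -/
def S_NET : Prop := ∀ (n : ℕ) [NeZero n] (d : Fin n → Fin n → ℝ), RMet d → ∀ m : ℕ,
  2 ≤ m → m < n →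
  (net d m).card = m ∧ 0 < rad d m ∧
  (∀ y, ∃ x ∈ net d m, d x y ≤ rad d m) ∧
  (∀ x ∈ net d m, ∀ y ∈ net d m, x ≠ y → rad d m ≤ d x y) ∧
  (m : ℝ) * rad d m ≤ tsp d univ

/-- Properties of the estimated distances. -/
def S_D1 : Prop := ∀ (n : ℕ) [NeZero n] (d : Fin n → Fin n → ℝ), RMet d → ∀ (m : ℕ) (K0 θ : ℝ),
  2 ≤ m → m < n → 4 ≤ K0 → 0 < θ →
  (∀ x y, d x y ≤ dh d m x y ∧ dh d m x y ≤ d x y + 2 * rad d m ∧ dh d m x y = dh d m y x) ∧
  (∀ x y, d x y ≤ dt d m K0 θ x y) ∧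
  (∀ x y, (Expl d m K0 θ x ∨ Expl d m K0 θ y) → dt d m K0 θ x y ≤ (1 + 4 / K0) * d x y) ∧
  IsCen d m K0 θ (cen d m K0 θ) ∧
  ((cen d m K0 θ).card : ℝ) * θ ≤ 1 ∧
  (∀ v, Dense d m K0 θ v → ∃ c ∈ cen d m K0 θ, d c v ≤ (2 * K0 + 2) * rad d m)

/-- Everything read in the first phase: radius, dense points, centres, known distances and the
rows of the centres. -/
noncomputable def info [NeZero n] (m : ℕ) (K0 θ : ℝ) (d : Fin n → Fin n → ℝ) :
    ℝ × Finset (Fin n) × Finset (Fin n) × (Fin n → Fin n → ℝ) × (Fin n → Fin n → ℝ) :=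
  (rad d m, univ.filter (Dense d m K0 θ), cen d m K0 θ, dt d m K0 θ,
    fun c y => if c ∈ cen d m K0 θ then d c y else 0)

/-- The first phase uses few queries. -/
def S_D1LOC : Prop := ∀ (n : ℕ) [NeZero n] (m : ℕ) (K0 θ : ℝ),
  2 ≤ m → m < n → 4 ≤ K0 → 0 < θ →
  ∃ c : ℕ, (c : ℝ) ≤ m * n + θ * n ^ 2 + n / θ ∧
    LocOn {d : Fin n → Fin n → ℝ | RMet d} c (info m K0 θ)

/-- Two centres are linked at radius `r`. -/
def Lnk (d : Fin n → Fin n → ℝ) (C : Finset (Fin n)) (r : ℝ) (c c' : Fin n) : Prop :=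
  Relation.ReflTransGen (fun a b => a ∈ C ∧ b ∈ C ∧ d a b ≤ 2 * r) c c'

/-- The points near the centres. -/
noncomputable def ball (d : Fin n → Fin n → ℝ) (C : Finset (Fin n)) (r : ℝ) : Finset (Fin n) :=
  univ.filter fun y => ∃ c ∈ C, d c y ≤ r

/-- Centres of the class of `y`. -/
noncomputable def cls (d : Fin n → Fin n → ℝ) (C : Finset (Fin n)) (r : ℝ) (y : Fin n) :
    Finset (Fin n) :=
  C.filter fun c' => ∃ c ∈ C, d c y ≤ r ∧ Lnk d C r c c'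

/-- The collapsing map at radius `r`. -/
noncomputable def fr (d : Fin n → Fin n → ℝ) (C : Finset (Fin n)) (r : ℝ) (y : Fin n) : Fin n :=
  if h : (cls d C r y).Nonempty then (cls d C r y).min' h else y

/-- Properties of the collapsing map. -/
def S_D2 : Prop := ∀ (n : ℕ) (d : Fin n → Fin n → ℝ), RMet d → ∀ (C : Finset (Fin n)) (r : ℝ),
  0 ≤ r →
  (∀ y, fr d C r (fr d C r y) = fr d C r y) ∧
  (∀ y, y ∈ ball d C r → fr d C r y ∈ C) ∧
  (∀ y, y ∉ ball d C r → fr d C r y = y) ∧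
  (∀ x y, fr d C r x = fr d C r y → x ≠ y → x ∈ ball d C r ∧ y ∈ ball d C r ∧
    d x y ≤ 2 * C.card * r) ∧
  (∀ x y, fr d C r x ≠ fr d C r y → x ∈ ball d C r → ∃ c ∈ C, d c x ≤ r ∧ r < d c y) ∧
  (∀ d' : Fin n → Fin n → ℝ, (∀ c ∈ C, ∀ y, d' c y = d c y) →
    fr d' C r = fr d C r ∧ ball d' C r = ball d C r)

/-- Number of (cyclically) consecutive pairs of a list with a given property. -/
noncomputable def ccnt {α : Type} (P : α → α → Prop) (l : List α) : ℝ :=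
  cyc (fun x y => if P x y then 1 else 0) l

/-- Collapsing a metric space: the two inequalities. -/
def S_COLL : Prop := ∀ (α : Type) [Fintype α] (d : α → α → ℝ), IsMet d →
  ∀ (f : α → α) (I : Finset α) (Dm : ℝ), (∀ x, f (f x) = f x) → 0 ≤ Dm →
  (∀ x y, f x = f y → d x y ≤ Dm) → (∀ x y, f x = f y → x ≠ y → x ∈ I ∧ y ∈ I) →
  tsp d univ ≤ tsp d (univ.image f) + ∑ c ∈ univ.image f, tsp d (univ.filter fun x => f x = c) ∧
  ∀ l : List α, l.Nodup → l.toFinset = univ →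
    tsp d (univ.image f) + ∑ c ∈ univ.image f, tsp d (univ.filter fun x => f x = c) ≤
      cyc d l + 3 * Dm * ccnt (fun x y => f x ≠ f y ∧ (x ∈ I ∨ y ∈ I)) l

/-- Averaging over the radii. -/
def S_AVG : Prop := ∀ (h0 K1 : ℕ) (η1 ε : ℝ), 1 ≤ h0 → 1 ≤ K1 → 0 < η1 → 0 < ε →
  ∃ KJ : ℕ, K1 ≤ KJ ∧ ∀ (n : ℕ) (d : Fin n → Fin n → ℝ), RMet d →
    ∀ (C : Finset (Fin n)) (ρ : ℝ) (l : List (Fin n)), C.card ≤ h0 → 0 < ρ → l.Nodup →
      l.toFinset = univ → η1 * n * ρ ≤ cyc d l →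
      ∃ i : ℕ, K1 ≤ i ∧ i ≤ KJ ∧
        6 * h0 * (i * ρ) *
          ∑ c ∈ C, ccnt (fun x y => (d c x ≤ i * ρ ∧ i * ρ < d c y) ∨
            (d c y ≤ i * ρ ∧ i * ρ < d c x)) l ≤ ε * cyc d l

/-- Shortest closed tours enumerating `S` for an arbitrary cost function. -/
noncomputable def tspn (d : Fin n → Fin n → ℝ) (S : Finset (Fin n)) : ℝ :=
  sInf {c : ℝ | ∃ l : List (Fin n), l.Nodup ∧ l.toFinset = S ∧ c = cyc d l}

/-- Comparison with approximate distances. -/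
def S_TSPN : Prop := ∀ (n : ℕ) (d d' : Fin n → Fin n → ℝ), RMet d → ∀ (S : Finset (Fin n)) (b : ℝ),
  1 ≤ b → (∀ x y, d x y ≤ d' x y) → (∀ x ∈ S, ∀ y ∈ S, d' x y ≤ b * d x y) →
  tsp d S ≤ tspn d' S ∧ tspn d' S ≤ b * tsp d S

/-- The cluster with centre `c` at radius index `i`. -/
noncomputable def fib [NeZero n] (d : Fin n → Fin n → ℝ) (m : ℕ) (K0 θ : ℝ) (i : ℕ) (c : Fin n) :
    Finset (Fin n) :=
  univ.filter fun x => fr d (cen d m K0 θ) (i * rad d m) x = c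

/-- The image of the collapsing map at radius index `i`. -/
noncomputable def img [NeZero n] (d : Fin n → Fin n → ℝ) (m : ℕ) (K0 θ : ℝ) (i : ℕ) :
    Finset (Fin n) :=
  univ.image (fr d (cen d m K0 θ) (i * rad d m))

/-- The value computed from estimates `v` of the tours of the clusters, at radius index `i`. -/
noncomputable def valD [NeZero n] (d : Fin n → Fin n → ℝ) (m : ℕ) (K0 θ : ℝ)
    (v : ℕ → Fin n → ℝ) (i : ℕ) : ℝ :=
  tspn (dt d m K0 θ) (img d m K0 θ i) + ∑ c ∈ cen d m K0 θ ∩ img d m K0 θ i, v i c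

/-- Deterministic analysis of the decomposition. -/
def S_DINEQ : Prop := ∀ (δ0 η1 θ : ℝ), 0 < δ0 → δ0 < 1 → 0 < η1 → 0 < θ → θ ≤ 1 →
  ∃ (K0 : ℝ) (K1 KJ : ℕ) (K ε2 : ℝ), 4 ≤ K0 ∧ K1 ≤ KJ ∧ 0 < K ∧ 0 < ε2 ∧
    ∀ (n : ℕ) [NeZero n] (d : Fin n → Fin n → ℝ), RMet d → ∀ m : ℕ, 2 ≤ m → m < n →
      η1 * n ≤ m →
      (∀ i, K1 ≤ i → i ≤ KJ → ∀ c, ∀ x ∈ fib d m K0 θ i c, ∀ y ∈ fib d m K0 θ i c,
        d x y ≤ K * (ε2 * rad d m)) ∧
      ∀ v : ℕ → Fin n → ℝ,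
        (∀ i, K1 ≤ i → i ≤ KJ → ∀ c ∈ cen d m K0 θ ∩ img d m K0 θ i,
          tsp d (fib d m K0 θ i c) ≤ v i c ∧
          v i c ≤ (2 - δ0) * tsp d (fib d m K0 θ i c) +
            (2 + 1) * (fib d m K0 θ i c).card * (ε2 * rad d m)) →
        (∀ i, K1 ≤ i → i ≤ KJ → tsp d univ ≤ valD d m K0 θ v i) ∧
        ∃ i, K1 ≤ i ∧ i ≤ KJ ∧ valD d m K0 θ v i ≤ (2 - δ0 / 2) * tsp d univ

end Pool.Agent.H699.T
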