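import Pool.Agent.H699.T.Base
import Pool.Agent.H699.T.Prob

/-!
# The forest of a random root set: definitions and statements

`κ` is a key function (injective on unordered pairs), `R` the root set.
-/

set_option autoImplicit false

namespace Pool.Agent.H699.T

open Finset Classical

variable {N : ℕ}

/-- Keys: symmetric, injective on unordered pairs. -/
structure IsKey (κ : Fin N → Fin N → ℕ) : Prop where
  symm : ∀ x y, κ x y = κ y x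
  self : ∀ x, κ x x = 0
  inj : ∀ x y x' y', x ≠ y → x' ≠ y' → κ x y = κ x' y' → (x = x' ∧ y = y') ∨ (x = y' ∧ y = x')

/-- The key function of an integer distance. -/
def key (d : Fin N → Fin N → ℕ) (x y : Fin N) : ℕ :=
  if x = y then 0 else d x y * (N * N) + ((min x y : Fin N) : ℕ) * N + ((max x y : Fin N) : ℕ)

/-- `x` and `y` are connected by edges with keys `< t`. -/
def Conn (κ : Fin N → Fin N → ℕ) (t : ℕ) (x y : Fin N) : Prop :=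
  Relation.ReflTransGen (fun a b => κ a b < t) x y

/-- Connected inside `C` by edges with keys `< t`. -/
def ConnIn (κ : Fin N → Fin N → ℕ) (C : Finset (Fin N)) (t : ℕ) (x y : Fin N) : Prop :=
  Relation.ReflTransGen (fun a b => a ∈ C ∧ b ∈ C ∧ κ a b < t) x y

/-- Bottleneck key from `v` to the root set. -/
noncomputable def th (κ : Fin N → Fin N → ℕ) (R : Finset (Fin N)) (v : Fin N) : ℕ :=
  sInf {t | ∃ r ∈ R, Conn κ (t + 1) v r}

/-- The cluster of `v` below its bottleneck. -/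
noncomputable def Qs (κ : Fin N → Fin N → ℕ) (R : Finset (Fin N)) (v : Fin N) : Finset (Fin N) :=
  univ.filter fun x => Conn κ (th κ R v) v x

/-- Exit pairs of the cluster of `v`. -/
def IsExit (κ : Fin N → Fin N → ℕ) (R : Finset (Fin N)) (v : Fin N) (e : Fin N × Fin N) : Prop :=
  e.1 ∈ Qs κ R v ∧ e.2 ∉ Qs κ R v ∧ κ e.1 e.2 = th κ R v

noncomputable def ext (κ : Fin N → Fin N → ℕ) (R : Finset (Fin N)) (v : Fin N) : Fin N × Fin N :=
  if h : ∃ e, IsExit κ R v e then Classical.choose h else (v, v)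

/-- The key function restricted to a set. -/
noncomputable def resK (κ : Fin N → Fin N → ℕ) (C : Finset (Fin N)) (a b : Fin N) : ℕ :=
  if a ∈ C ∧ b ∈ C then κ a b else 0

/-- Good parent functions inside `C` towards `z`. -/
def GoodIn (κ : Fin N → Fin N → ℕ) (C : Finset (Fin N)) (z : Fin N) (q : Fin N → Fin N)
    (rk : Fin N → ℕ) : Prop :=
  (∀ v, rk v ≤ N) ∧ (∀ v ∈ C, v ≠ z → q v ∈ C ∧ rk (q v) < rk v) ∧
  ∀ t, ∀ v ∈ C, ∀ v' ∈ C, v ≠ v' → (v = z ∨ t ≤ κ v (q v)) → (v' = z ∨ t ≤ κ v' (q v')) →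
    ¬ ConnIn κ C t v v'

def S_INNER : Prop := ∀ (N : ℕ) (κ : Fin N → Fin N → ℕ), (∀ x y, κ x y = κ y x) →
  ∀ (C : Finset (Fin N)) (z : Fin N), z ∈ C → ∃ q rk, GoodIn κ C z q rk

noncomputable def inn (κ : Fin N → Fin N → ℕ) (C : Finset (Fin N)) (z : Fin N) : Fin N → Fin N :=
  if h : ∃ q rk, GoodIn (resK κ C) C z q rk then Classical.choose h else id

/-- The parent function. -/
noncomputable def par (κ : Fin N → Fin N → ℕ) (R : Finset (Fin N)) (v : Fin N) : Fin N :=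
  if v ∈ R then v
  else if v = (ext κ R v).1 then (ext κ R v).2
  else inn κ (Qs κ R v) (ext κ R v).1 v

/-- Structure of the clusters: classes, exit pair. -/
def S_CLUS : Prop := ∀ (N : ℕ) (κ : Fin N → Fin N → ℕ), IsKey κ → ∀ (R : Finset (Fin N)),
  R.Nonempty → ∀ v : Fin N, v ∉ R →
  (∀ x ∈ Qs κ R v, x ∉ R) ∧ v ∈ Qs κ R v ∧
  (∀ x ∈ Qs κ R v, th κ R x = th κ R v ∧ Qs κ R x = Qs κ R v ∧ ext κ R x = ext κ R v) ∧
  (∀ x ∈ Qs κ R v, ∀ y, y ∉ Qs κ R v → th κ R v ≤ κ x y) ∧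
  (∀ x ∈ Qs κ R v, ConnIn κ (Qs κ R v) (th κ R v) v x) ∧
  IsExit κ R v (ext κ R v) ∧ (∀ e, IsExit κ R v e → e = ext κ R v) ∧
  ((ext κ R v).2 ∈ R ∨ th κ R (ext κ R v).2 < th κ R v)

/-- The parent function: ranks, disjointness of the clusters of long edges, local candidates. -/
def S_PAR : Prop := ∀ (N : ℕ) (κ : Fin N → Fin N → ℕ), IsKey κ → ∀ (R : Finset (Fin N)),
  R.Nonempty →
  (∃ rk : Fin N → ℕ, ∀ v, v ∉ R → rk (par κ R v) < rk v) ∧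
  (∀ t : ℕ, ∀ v, v ∉ R → t ≤ κ v (par κ R v) → (∀ r ∈ R, ¬ Conn κ t v r) ∧
    ∀ v', v' ∉ R → v' ≠ v → t ≤ κ v' (par κ R v') → ¬ Conn κ t v v') ∧
  (∀ v, v ∉ R → par κ R v ∉ R → ∀ r ∈ R, κ v (par κ R v) < κ v r) ∧
  (∀ v, v ∉ R → (par κ R v ∈ Qs κ R v) ∨
    (v = (ext κ R v).1 ∧ par κ R v = (ext κ R v).2))

/-- Rows of `S` only. -/
noncomputable def resR (κ : Fin N → Fin N → ℕ) (S : Finset (Fin N)) (a b : Fin N) : ℕ :=
  if a ∈ S then κ a b else 0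

/-- `y` is the outer end of a cheapest edge leaving `S`. -/
def IsNu (κ : Fin N → Fin N → ℕ) (S : Finset (Fin N)) (y : Fin N) : Prop :=
  y ∉ S ∧ ∃ x ∈ S, ∀ x' ∈ S, ∀ y', y' ∉ S → κ x y ≤ κ x' y'

/-- Next vertex of Prim's exploration started at `v`. -/
noncomputable def nu (κ : Fin N → Fin N → ℕ) (v : Fin N) (S : Finset (Fin N)) : Fin N :=
  if h : ∃ y, IsNu (resR κ S) S y then Classical.choose h else v

/-- Prim's exploration. -/
noncomputable def prim (κ : Fin N → Fin N → ℕ) (v : Fin N) : ℕ → Finset (Fin N)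
  | 0 => {v}
  | i + 1 => insert (nu κ v (prim κ v i)) (prim κ v i)

/-- The time when the exploration meets the root set. -/
noncomputable def hit (κ : Fin N → Fin N → ℕ) (R : Finset (Fin N)) (v : Fin N) : ℕ :=
  sInf {i | nu κ v (prim κ v i) ∈ R}

/-- The explored set. -/
noncomputable def X (κ : Fin N → Fin N → ℕ) (R : Finset (Fin N)) (v : Fin N) : Finset (Fin N) :=
  prim κ v (hit κ R v)

/-- `v` is bad: its exploration does not meet the roots within `L` steps. -/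
def Bad (κ : Fin N → Fin N → ℕ) (R : Finset (Fin N)) (L : ℕ) (v : Fin N) : Prop :=
  ∀ i < L, nu κ v (prim κ v i) ∉ R

def S_PRIM1 : Prop := ∀ (N : ℕ) (κ : Fin N → Fin N → ℕ), IsKey κ → ∀ (v : Fin N),
  (∀ i, v ∈ prim κ v i) ∧ (∀ i j, i ≤ j → prim κ v i ⊆ prim κ v j) ∧
  (∀ i, i < N → (prim κ v i).card = i + 1) ∧
  (∀ i, i + 1 < N → IsNu κ (prim κ v i) (nu κ v (prim κ v i))) ∧
  (∀ S : Finset (Fin N), ∀ κ' : Fin N → Fin N → ℕ, (∀ a ∈ S, ∀ b, κ' a b = κ a b) →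
    nu κ' v S = nu κ v S)

def S_PRIM2 : Prop := ∀ (N : ℕ) (κ : Fin N → Fin N → ℕ), IsKey κ → ∀ (R : Finset (Fin N)),
  R.Nonempty → ∀ v : Fin N, v ∉ R →
  (∀ x ∈ X κ R v, x ∉ R) ∧ nu κ v (X κ R v) ∈ R ∧ hit κ R v + 1 < N ∧
  (X κ R v).card = hit κ R v + 1 ∧
  Qs κ R v ⊆ X κ R v ∧
  ((ext κ R v).2 ∈ R ∨ X κ R v = Qs κ R v ∪ X κ R (ext κ R v).2) ∧
  (∀ x ∈ Qs κ R v, X κ R x = X κ R v)

/-- The explored sets and the parent function. -/
def S_PRIM3 : Prop := ∀ (N : ℕ) (κ : Fin N → Fin N → ℕ), IsKey κ → ∀ (R : Finset (Fin N)),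
  R.Nonempty → ∀ v : Fin N, v ∉ R → par κ R v ∉ R →
  par κ R v ∈ X κ R v ∧ X κ R (par κ R v) ⊆ X κ R v ∧
  ∀ L, ¬ Bad κ R L v → ¬ Bad κ R L (par κ R v)

/-- Locality of the parent function. -/
def S_PLOC : Prop := ∀ (N : ℕ) (κ κ' : Fin N → Fin N → ℕ), IsKey κ → IsKey κ' →
  ∀ (R : Finset (Fin N)), R.Nonempty → ∀ v : Fin N, v ∉ R →
  (∀ a ∈ X κ R v, ∀ b, κ' a b = κ a b) → X κ' R v = X κ R v ∧ par κ' R v = par κ R v

def S_KEY : Prop := ∀ (N : ℕ) (d : Fin N → Fin N → ℕ), (∀ x y, d x y = d y x) →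
  IsKey (key d) ∧ ∀ x y t, x ≠ y → (key d x y < (t + 1) * (N * N) ↔ d x y ≤ t)

/-- Smallest key to a root. -/
noncomputable def mR (κ : Fin N → Fin N → ℕ) (R : Finset (Fin N)) (x : Fin N) : ℕ :=
  sInf ((fun r => κ x r) '' (R : Set (Fin N)))

/-- Potential children of `y`. -/
noncomputable def dn (κ : Fin N → Fin N → ℕ) (R : Finset (Fin N)) (y : Fin N) : Finset (Fin N) :=
  univ.filter fun x => x ∉ R ∧ x ≠ y ∧ κ x y < mR κ R x

/-- Hubs: vertices with more than `Δ` potential children. -/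
def Hub (κ : Fin N → Fin N → ℕ) (R : Finset (Fin N)) (Δ : ℕ) (y : Fin N) : Prop :=
  Δ < (dn κ R y).card

def S_BADP : Prop := ∀ (N q L : ℕ) (κ : Fin N → Fin N → ℕ), IsKey κ → 1 ≤ q → L < N →
  ∀ v : Fin N, pr (fun ω : Fin N → Fin q => Bad κ (zs ω) L v) ≤ (1 - 1 / (q : ℝ)) ^ L

def S_HUBP : Prop := ∀ (N q : ℕ) (κ : Fin N → Fin N → ℕ), IsKey κ → 1 ≤ q →
  ex (fun ω : Fin N → Fin q => if (zs ω).Nonempty then ∑ y, ((dn κ (zs ω) y).card : ℝ) else 0)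
    ≤ N * q

/-- The vertices of the units. -/
noncomputable def V0 (κ : Fin N → Fin N → ℕ) (R : Finset (Fin N)) (L Δ : ℕ) : Finset (Fin N) :=
  univ.filter fun v => v ∉ R ∧ ¬ Bad κ R L v ∧ ¬ Hub κ R Δ v

/-- Parent inside the units. -/
noncomputable def p0 (κ : Fin N → Fin N → ℕ) (R : Finset (Fin N)) (L Δ : ℕ) (v : Fin N) : Fin N :=
  if v ∈ V0 κ R L Δ ∧ par κ R v ∈ V0 κ R L Δ then par κ R v else v

/-- Top vertex of the unit. -/
noncomputable def top (κ : Fin N → Fin N → ℕ) (R : Finset (Fin N)) (L Δ : ℕ) (v : Fin N) : Fin N :=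
  (p0 κ R L Δ)^[N] v

/-- Chain of `v` in its unit. -/
noncomputable def ch (κ : Fin N → Fin N → ℕ) (R : Finset (Fin N)) (L Δ : ℕ) (v : Fin N) :
    Finset (Fin N) :=
  univ.filter fun u => ∃ i : ℕ, (p0 κ R L Δ)^[i] v = u

/-- Parent in the full tree with root `r0`. -/
noncomputable def pT (κ : Fin N → Fin N → ℕ) (R : Finset (Fin N)) (L Δ : ℕ) (r0 v : Fin N) :
    Fin N :=
  if v ∈ V0 κ R L Δ then par κ R v else r0

def S_UNIT : Prop := ∀ (N : ℕ) (κ : Fin N → Fin N → ℕ), IsKey κ → ∀ (R : Finset (Fin N)),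
  R.Nonempty → ∀ L Δ : ℕ,
  (∀ v ∈ V0 κ R L Δ, v ∈ ch κ R L Δ v ∧ ch κ R L Δ v ⊆ V0 κ R L Δ ∧
    ch κ R L Δ v ⊆ X κ R v ∧
    (ch κ R L Δ v).card ≤ L ∧ top κ R L Δ v ∈ ch κ R L Δ v ∧
    (∀ u ∈ ch κ R L Δ v, top κ R L Δ u = top κ R L Δ v) ∧
    (top κ R L Δ v = v ↔ par κ R v ∉ V0 κ R L Δ)) ∧
  (∀ l, ((V0 κ R L Δ).filter fun x => top κ R L Δ x = l).card ≤ (Δ + 1) ^ L) ∧
  (∀ y ∈ V0 κ R L Δ, ∀ x ∈ V0 κ R L Δ, par κ R x = y → x ∈ dn κ R y) ∧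
  (∀ r0 ∈ R, ∃ rk : Fin N → ℕ, (∀ v, v ≠ r0 → rk (pT κ R L Δ r0 v) < rk v) ∧
    pT κ R L Δ r0 r0 = r0 ∧
    ∀ x ∈ V0 κ R L Δ, anc (pT κ R L Δ r0) r0 x ∩ V0 κ R L Δ = ch κ R L Δ x)

end Pool.Agent.H699.T
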